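import Pool.Agent.H84.SS.Targets

/-!
Row D_RSZ of the board ssp_modules: Riesz representation of a functional on trigonometric
polynomials.
-/

set_option autoImplicit false

namespace Pool.Agent.H1.SS

open MeasureTheory Filter Topology Set ProbabilityTheory
open scoped ENNReal ComplexConjugate
open Pool.Agent.H84.SS
open Pool.Agent.H85.RT (avg GoodWeight Good)
open Pool.Agent.H94.RTB (LGood PD)

universe u v

/-- the characters as continuous functions -/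
noncomputable def chC (i : ℤ × ℤ) : C(T1 × T1, ℂ) :=
  ⟨fun p => ch i.1 i.2 p, by
    unfold ch
    exact ((fourier i.1).continuous.comp continuous_fst).mul
      ((fourier i.2).continuous.comp continuous_snd)⟩

theorem chC_apply (i : ℤ × ℤ) (p : T1 × T1) : chC i p = ch i.1 i.2 p := rfl

theorem L2_norm_sq (ν : Measure (T1 × T1)) (f : Lp ℂ 2 ν) : ‖f‖ ^ 2 = ∫ z, ‖f z‖ ^ 2 ∂ν := by
  have h1 : ((‖f‖ ^ 2 : ℝ) : ℂ) = ((∫ z, ‖f z‖ ^ 2 ∂ν : ℝ) : ℂ) := by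
    have h2 := inner_self_eq_norm_sq_to_K (𝕜 := ℂ) f
    rw [L2.inner_def] at h2
    push_cast
    rw [← integral_complex_ofReal]
    have h3 : (‖f‖ : ℂ) ^ 2 = ∫ z, inner ℂ (f z) (f z) ∂ν := h2.symm
    rw [h3]
    refine integral_congr_ae (Eventually.of_forall fun z => ?_)
    simp only
    rw [inner_self_eq_norm_sq_to_K]
    push_cast
    rfl
  exact_mod_cast h1

/-- D2: Riesz representation of a functional on trigonometric polynomials -/
theorem pf_RSZ : D_RSZ := by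
  intro ν _ C r hC hle
  obtain ⟨Φ, hΦ⟩ : ∃ Φ : ((ℤ × ℤ) →₀ ℂ) →ₗ[ℂ] Lp ℂ 2 ν, Φ =
      (ContinuousMap.toLp (E := ℂ) 2 ν ℂ).toLinearMap ∘ₗ Finsupp.linearCombination ℂ chC :=
    ⟨_, rfl⟩
  obtain ⟨Ψ, hΨ⟩ : ∃ Ψ : ((ℤ × ℤ) →₀ ℂ) →ₗ[ℂ] ℂ, Ψ = Finsupp.linearCombination ℂ r := ⟨_, rfl⟩
  have hΦu : ∀ u : (ℤ × ℤ) →₀ ℂ, ∀ᵐ z ∂ν, (Φ u : T1 × T1 → ℂ) z =
      ∑ i ∈ u.support, u i * ch i.1 i.2 z := by
    intro u
    have h1 : Φ u = ContinuousMap.toLp (E := ℂ) 2 ν ℂ (∑ i ∈ u.support, u i • chC i) := by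
      rw [hΦ]
      rfl
    rw [h1]
    filter_upwards [ContinuousMap.coeFn_toLp (p := 2) (𝕜 := ℂ) ν
      (∑ i ∈ u.support, u i • chC i)] with z hz
    rw [hz, ContinuousMap.sum_apply]
    rfl
  have hΨu : ∀ u : (ℤ × ℤ) →₀ ℂ, Ψ u = ∑ i ∈ u.support, u i * r i := by
    intro u
    rw [hΨ]
    rfl
  have hbound : ∀ u : (ℤ × ℤ) →₀ ℂ, ‖Ψ u‖ ≤ Real.sqrt C * ‖Φ u‖ := by
    intro u
    have h1 := hle u.support u
    rw [← hΨu] at h1
    have h2 : ∫ z, ‖∑ i ∈ u.support, u i * ch i.1 i.2 z‖ ^ 2 ∂ν = ‖Φ u‖ ^ 2 := by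
      rw [L2_norm_sq]
      refine integral_congr_ae ?_
      filter_upwards [hΦu u] with z hz
      rw [hz]
    rw [h2] at h1
    refine le_of_sq_le_sq ?_ (by positivity)
    rw [mul_pow, Real.sq_sqrt hC]
    exact h1
  have hker : LinearMap.ker Φ ≤ LinearMap.ker Ψ := by
    intro u hu
    rw [LinearMap.mem_ker] at hu ⊢
    have h1 := hbound u
    rw [hu, norm_zero, mul_zero] at h1
    exact norm_le_zero_iff.1 h1
  obtain ⟨φ₀, hφ₀⟩ : ∃ φ₀ : LinearMap.range Φ →ₗ[ℂ] ℂ, ∀ u, φ₀ ⟨Φ u, u, rfl⟩ = Ψ u := by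
    refine ⟨((LinearMap.ker Φ).liftQ Ψ hker) ∘ₗ
      (Φ.quotKerEquivRange.symm : LinearMap.range Φ →ₗ[ℂ] _), fun u => ?_⟩
    rw [LinearMap.comp_apply]
    have h1 : (Φ.quotKerEquivRange.symm : LinearMap.range Φ →ₗ[ℂ] _) ⟨Φ u, u, rfl⟩ =
        (LinearMap.ker Φ).mkQ u := by
      have h2 := Φ.quotKerEquivRange_symm_apply_image u (LinearMap.mem_range_self Φ u)
      exact h2
    rw [h1, Submodule.mkQ_apply, Submodule.liftQ_apply]
  obtain ⟨φ, hφ⟩ : ∃ φ : LinearMap.range Φ →L[ℂ] ℂ, φ = φ₀.mkContinuous (Real.sqrt C) (by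
      rintro ⟨_, u, rfl⟩
      rw [hφ₀]
      exact hbound u) := ⟨_, rfl⟩
  have hφn : ‖φ‖ ≤ Real.sqrt C := by
    rw [hφ]
    exact LinearMap.mkContinuous_norm_le _ (Real.sqrt_nonneg _) _
  obtain ⟨g, hg1, hg2⟩ := exists_extension_norm_eq (LinearMap.range Φ) φ
  obtain ⟨v, hv⟩ : ∃ v : Lp ℂ 2 ν, v = (InnerProductSpace.toDual ℂ (Lp ℂ 2 ν)).symm g := ⟨_, rfl⟩
  have hvn : ‖v‖ ≤ Real.sqrt C := by
    rw [hv, LinearIsometryEquiv.norm_map, hg2]
    exact hφn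
  have hvi : ∀ y : Lp ℂ 2 ν, inner ℂ v y = g y := by
    intro y
    rw [hv, InnerProductSpace.toDual_symm_apply]
  have hGm : Measurable fun z => conj ((v : T1 × T1 → ℂ) z) :=
    Complex.continuous_conj.measurable.comp (Lp.stronglyMeasurable v).measurable
  have hnorm : ∀ z, ‖conj ((v : T1 × T1 → ℂ) z)‖ = ‖(v : T1 × T1 → ℂ) z‖ := fun z =>
    RCLike.norm_conj _
  refine ⟨fun z => conj ((v : T1 × T1 → ℂ) z), hGm, ?_, ?_, ?_⟩
  · exact (Lp.memLp v).congr_norm hGm.aestronglyMeasurable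
      (Eventually.of_forall fun z => (hnorm z).symm)
  · simp only [hnorm]
    rw [← L2_norm_sq]
    calc ‖v‖ ^ 2 ≤ Real.sqrt C ^ 2 := pow_le_pow_left₀ (norm_nonneg _) hvn 2
      _ = C := Real.sq_sqrt hC
  · intro i
    have h1 : Ψ (Finsupp.single i 1) = r i := by
      rw [hΨ, Finsupp.linearCombination_single, one_smul]
    have h2 : inner ℂ v (Φ (Finsupp.single i 1)) = r i := by
      rw [hvi, ← h1, ← hφ₀]
      have h3 := hg1 ⟨Φ (Finsupp.single i 1), Finsupp.single i 1, rfl⟩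
      rw [h3, hφ]
      rfl
    rw [← h2, L2.inner_def]
    refine integral_congr_ae ?_
    filter_upwards [hΦu (Finsupp.single i 1)] with z hz
    have h4 : ∑ j ∈ (Finsupp.single i (1 : ℂ)).support, (Finsupp.single i (1 : ℂ)) j *
        ch j.1 j.2 z = ch i.1 i.2 z := by
      rw [Finsupp.support_single i one_ne_zero, Finset.sum_singleton, Finsupp.single_eq_same,
        one_mul]
    rw [hz, h4, RCLike.inner_apply]

end Pool.Agent.H1.SS
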