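import Pool.Agent.H84.SS.Targets

/-!
Row M_STO of the board ssp_modules: random times at which the averages are large.
-/

set_option autoImplicit false

namespace Pool.Agent.H1.SS

open MeasureTheory Filter Topology Set ProbabilityTheory
open scoped ENNReal ComplexConjugate
open Pool.Agent.H84.SS
open Pool.Agent.H85.RT (avg GoodWeight Good)
open Pool.Agent.H94.RTB (LGood PD)

universe u v

theorem avg_meas {X : Type u} [MeasurableSpace X] (T : X ≃ᵐ X) {f g : X → ℂ} (w : ℕ → ℂ)
    (hf : Measurable f) (hg : Measurable g) (M : ℕ) : Measurable (avg T f g w M) := by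
  have h1 : ∀ n : ℕ, Measurable (T^[n]) := fun n => T.measurable.iterate n
  have h2 : ∀ n : ℕ, Measurable (T.symm^[n]) := fun n => T.symm.measurable.iterate n
  have h3 : Measurable fun x => ∑ n ∈ Finset.Icc 1 M, f (T^[n] x) * g (T.symm^[n] x) * w n :=
    Finset.measurable_sum _ fun n _ => ((hf.comp (h1 n)).mul (hg.comp (h2 n))).mul_const _
  exact h3.div_const _

/-- M1: random times at which the averages are large -/
theorem pf_STO : M_STO.{u} := by
  classical
  intro X _ T f g w δ hf hg hδ
  have hav : ∀ M, Measurable (avg T f g w M) := avg_meas T w hf hg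
  obtain ⟨E, hEd⟩ : ∃ E : ℕ → Set X, E = fun M => {x | δ < ‖avg T f g w M x‖} := ⟨_, rfl⟩
  have hE : ∀ M, MeasurableSet (E M) := fun M => by
    rw [hEd]
    exact measurableSet_lt measurable_const (hav M).norm
  obtain ⟨Pr, hPr⟩ : ∃ Pr : ℕ → X → ℕ → Prop, Pr = fun i x M =>
    i + 1 ≤ M ∧ (x ∈ E M ∨ ∀ M', i + 1 ≤ M' → x ∉ E M') := ⟨_, rfl⟩
  have hex : ∀ i x, ∃ M, Pr i x M := by
    intro i x
    rw [hPr]
    by_cases h : ∃ M, i + 1 ≤ M ∧ x ∈ E M
    · obtain ⟨M, h1, h2⟩ := h
      exact ⟨M, h1, Or.inl h2⟩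
    · exact ⟨i + 1, le_rfl, Or.inr fun M' h1 h2 => h ⟨M', h1, h2⟩⟩
  have hm : ∀ i k, MeasurableSet {x | Pr i x k} := by
    intro i k
    have e : {x | Pr i x k} = {_x | i + 1 ≤ k} ∩ (E k ∪ ⋂ M', ({_x | ¬ i + 1 ≤ M'} ∪ (E M')ᶜ)) := by
      ext x
      rw [hPr]
      simp only [mem_ofPred_eq, mem_inter_iff, mem_union, mem_iInter, mem_compl_iff]
      refine and_congr_right fun _ => or_congr_right (forall_congr' fun M' => ?_)
      tauto
    rw [e]
    exact (MeasurableSet.const _).inter ((hE k).union (MeasurableSet.iInter fun M' =>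
      (MeasurableSet.const _).union (hE M').compl))
  obtain ⟨N, hNd⟩ : ∃ N : ℕ → X → ℕ, N = fun i x => Nat.find (hex i x) := ⟨_, rfl⟩
  have hN : ∀ i, Measurable (N i) := fun i => by
    rw [hNd]
    exact measurable_find (hex i) (hm i)
  have hspec : ∀ i x, i + 1 ≤ N i x ∧ (x ∈ E (N i x) ∨ ∀ M', i + 1 ≤ M' → x ∉ E M') := by
    intro i x
    have h1 : Pr i x (N i x) := by
      rw [hNd]
      exact Nat.find_spec (hex i x)
    rw [hPr] at h1
    exact h1
  obtain ⟨a, had⟩ : ∃ a : ℕ → X → ℂ, a = fun i x => avg T f g w (N i x) x := ⟨_, rfl⟩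
  have ha : ∀ i, Measurable (a i) := by
    intro i
    have h5 : Measurable (fun q : ℕ × X => avg T f g w q.1 q.2) :=
      measurable_from_prod_countable_right hav
    have h6 : Measurable fun x => (N i x, x) := (hN i).prodMk measurable_id
    have h7 : a i = (fun q : ℕ × X => avg T f g w q.1 q.2) ∘ fun x => (N i x, x) := by
      rw [had]
      rfl
    rw [h7]
    exact h5.comp h6
  obtain ⟨θ, hθd⟩ : ∃ θ : ℕ → X → ℂ, θ = fun i x =>
    if a i x = 0 then 1 else conj (a i x) / (‖a i x‖ : ℂ) := ⟨_, rfl⟩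
  have hθ : ∀ i, Measurable (θ i) := by
    intro i
    rw [hθd]
    refine Measurable.ite ((ha i) (measurableSet_singleton 0)) measurable_const ?_
    exact (Complex.continuous_conj.measurable.comp (ha i)).div
      (Complex.measurable_ofReal.comp (ha i).norm)
  have hmul : ∀ i x, θ i x * a i x = (‖a i x‖ : ℂ) := by
    intro i x
    rw [hθd]
    by_cases h0 : a i x = 0
    · simp only [if_pos h0]
      rw [h0]
      simp
    · simp only [if_neg h0]
      have h1 : (‖a i x‖ : ℂ) ≠ 0 := by exact_mod_cast norm_ne_zero_iff.2 h0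
      rw [div_mul_eq_mul_div, Complex.conj_mul', sq, mul_div_assoc, div_self h1, mul_one]
  refine ⟨N, θ, ⟨hN, fun i x => (hspec i x).1, hθ, fun i x => ?_⟩, fun i x => ?_⟩
  · rw [hθd]
    by_cases h0 : a i x = 0
    · simp only [if_pos h0, norm_one, le_refl]
    · simp only [if_neg h0]
      rw [norm_div, Complex.norm_real, norm_norm, RCLike.norm_conj]
      exact div_self_le_one _
  · refine ⟨‖a i x‖, norm_nonneg _, ?_, fun hfr => ?_⟩
    · rw [← hmul]
      unfold ph
      congr 1
      rw [had]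
      simp only
      unfold avg
      congr 1
      refine Finset.sum_congr rfl fun n _ => ?_
      simp only [add_zero]
      ring
    · obtain ⟨M, hM1, hM2⟩ := (hfr.and_eventually (eventually_ge_atTop (i + 1))).exists
      have hME : x ∈ E M := by
        rw [hEd]
        exact hM1
      rcases (hspec i x).2 with h1 | h1
      · rw [hEd] at h1
        rw [had]
        exact le_of_lt h1
      · exact absurd hME (h1 M hM2)

end Pool.Agent.H1.SS
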